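import Pool.Agent.Helper33.BF4

/-!
# `ℓ²`-homology above half the dimension for ALL right-angled Coxeter groups, up to the bad cliques

Let `G` be any finite graph, with a linear order of its vertices.  If the flag complex of `G` is a full
subcomplex of a flag triangulated sphere of dimension `n - 1` then the right-angled Coxeter group `W G`
acts geometrically on a contractible `n`-manifold with boundary, so that its cocompact action dimension is
at most `n`.

For cliques `S` (possibly empty) and numbers `k` let `B k S` be a set of vertices which contains the
vertices `u` of the link of `S` such that the link of `S ∪ {u}` is not in the class `AQ (2 k - 3)` of the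
starting library (`GoodFlags`; this is demanded only for `k ≥ 2` and `k + |S| ≥ I`).  The class `AQ k`
consists of graphs all of whose full subcomplexes have no `ℓ²`-homology in the degrees above `k / 2`.  A
clique `T` with `i` elements is bad (`Bad`) if for each initial segment `R` of `T` with at least two
elements missing, all elements of `T \ R` are in `B (i - |R|) R`; `badCl G B i` is the number of the bad
cliques with `i` elements.
-/

set_option autoImplicit false

namespace Pool.Agent.Results.MP_ea75ba_gt.BadFlags

open Pool.Agent.W907.SG Pool.Agent.TH652.Above Pool.Agent.Y132.SI
open Pool.Agent.Helper33.BF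

/-- (1) If `i ≥ I` and there is no bad clique with `i` elements then the reduced `ℓ²`-homology of the
Davis complex of `W G` vanishes in the degree `i`.
(2) For each `ε > 0` there is a finite set `E` of nontrivial elements of `W G` such that for every
subgroup `H` of finite index which contains no conjugate of an element of `E`, and for all `i ≥ I`, the
`i`-th real Betti number of `H` is at most `(f_i / 2^i + ε) [W G : H]`, where `f_i` is the number of the
bad cliques with `i` elements. -/
theorem result (V : Type) [Fintype V] [LinearOrder V] (G : SimpleGraph V) (I : ℕ)
    (B : ℕ → Finset V → Set V) (hB : GoodFlags G B I) :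
    (∀ i : ℕ, I ≤ i → badCl G B i = 0 → L2Van G i) ∧
    ∀ ε : ℝ, 0 < ε → ∃ E : Finset (W G), (1 : W G) ∉ E ∧
      ∀ H : Subgroup (W G), H.FiniteIndex → (∀ g ∈ E, ∀ x : W G, x * g * x⁻¹ ∉ H) →
        ∀ i : ℕ, I ≤ i → (Module.finrank ℝ (HInv G H i) : ℝ) ≤
          ((badCl G B i : ℝ) / 2 ^ i + ε) * H.index :=
  ⟨fun i hi h0 => l2van_flags G B I hB i hi h0, fun ε hε => betti_le_flags G B I hB ε hε⟩

end Pool.Agent.Results.MP_ea75ba_gt.BadFlags
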